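import Pool.Agent.R189.SY.Ex3
import Pool.Agent.R189.SY.Dim2

set_option autoImplicit false

/-!
# A projective primitive symplectic fourfold with a nontrivial torsion line bundle

The SYZ conjecture for primitive symplectic varieties is stated for nontrivial nef line bundles `L`
with `q_X(L) = 0`, where nontrivial means `L ≇ O_X`. The theorem shows that in this form it is false in
dimension four, the smallest possible dimension for quotients of tori: there are a projective
primitive symplectic variety `X = V / Γ`, `V = ℂ⁴`, and a line bundle `L` on `X` of order two; it is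
nef with `q_X(L) = 0`, but it induces no fibration. So in the conjecture one has to assume that `L` is
not torsion, that is, `c_1(L) ≠ 0` in `H²(X, ℚ)`; then it is true for all quotients of tori by
`MP_63735c_ag.TorusQuotients` in the starting files.

`IsPrimitiveSymplectic`, `LineBundle`, `LineBundle.pow`, `LineBundle.IsSection` and
`LineBundle.IsTrivial` are defined in `Pool.Agent.W594.SYZ.Defs2`; `IsChernForm`, `IsNefForm`,
`IsPositiveForm`, `IsDegenerateForm`, `IsLagrangianFibration` and `Induces` in
`Pool.Agent.W594.SYZ.TQDefs`.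

The example: the dihedral group `G ⊂ O(2, ℤ)` of order eight acts on `ℂ⁴ = ℂ² ⊗ ℂ²`, and on the torus
`ℂ⁴ / Λ`, `Λ` the lattice of all `(t₀, t₁, t₂, t₃)` in `ℤ[i]⁴` with `Re t₂ + Re t₃` even. The elements of
determinant `-1` are composed with the translation by `c = (1/2, 1/2, 1, 0)`, which is invariant modulo
`Λ` and of order two. Then the elements of determinant `-1` act without fixed points: for the diagonal
matrices because of the coordinates `t₀, t₁ ∈ 1/2 + ℤ[i]`, for the others because `Re t₂ + Re t₃` is
odd. So the determinant is a character of `Γ` which is trivial on all stabilisers, and this is the line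
bundle `L`. The ring of invariants of `G` on `Λ^2` is generated by the symplectic form.
-/

namespace Pool.Agent.Results.MP_63735c_ag.TorsionLineBundles

open Pool.Agent.W594.SYZ2

/-- 1. There are a primitive symplectic variety `X = V / Γ` of dimension four which is a quotient of a
complex torus by a finite group and which is projective (it has an ample line bundle `A`, moreover
generated by global sections), and a line bundle `L` on `X`, not isomorphic to `O_X`, but with `L²`
isomorphic to `O_X`. It is nef and `q_X(L) = 0` (its Chern form `0` is positive semidefinite and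
degenerate), and it induces no Lagrangian fibration: no power of `L` is the pullback of an ample line
bundle under a Lagrangian fibration given by a linear map. Moreover the global sections of all powers
of `L` are constant, and zero for the odd powers.

2. In dimension two (for `K3` surfaces which are quotients of tori) every line bundle with Chern form
zero is trivial. -/
theorem result :
    (∃ Γ : Subgroup ((Fin 4 → ℂ) ≃ᵃ[ℂ] (Fin 4 → ℂ)), IsPrimitiveSymplectic Γ ∧
      (∃ (A : LineBundle Γ) (HA : (Fin 4 → ℂ) → (Fin 4 → ℂ) → ℂ), IsChernForm A HA ∧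
        IsPositiveForm HA ∧ ∀ v, ∃ s, A.IsSection s ∧ s v ≠ 0) ∧
      ∃ L : LineBundle Γ, ¬ L.IsTrivial ∧ (L.pow 2).IsTrivial ∧
        (∃ H, IsChernForm L H ∧ IsNefForm H ∧ IsDegenerateForm H) ∧
        (∀ (n : ℕ) (Δ : Subgroup ((Fin n → ℂ) ≃ᵃ[ℂ] (Fin n → ℂ)))
          (π : (Fin 4 → ℂ) →ₗ[ℂ] (Fin n → ℂ)), IsLagrangianFibration Γ Δ π → ¬ Induces L Δ π) ∧
        ∀ (m : ℕ) (s : (Fin 4 → ℂ) → ℂ), (L.pow m).IsSection s →
          (∀ v w, s v = s w) ∧ (Odd m → ∀ v, s v = 0)) ∧
    ∀ {V : Type*} [NormedAddCommGroup V] [NormedSpace ℂ V] [FiniteDimensional ℂ V]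
      (Γ : Subgroup (V ≃ᵃ[ℂ] V)), IsPrimitiveSymplectic Γ → Module.finrank ℂ V = 2 →
        ∀ L : LineBundle Γ, IsChernForm L (fun _ _ => 0) → L.IsTrivial := by
  refine ⟨⟨Pool.Agent.R189.SY.Ex.Gam, Pool.Agent.R189.SY.Ex.primitive,
    Pool.Agent.R189.SY.Ex.exists_ample, Pool.Agent.R189.SY.Ex.tors,
    Pool.Agent.R189.SY.Ex.not_trivial, Pool.Agent.R189.SY.Ex.trivial_two,
    ⟨_, Pool.Agent.R189.SY.Ex.tors_chern, fun v => by simp, ?_⟩,
    fun n Δ π hf => Pool.Agent.R189.SY.Ex.tors_not_induces hf, fun m s hs =>
      ⟨Pool.Agent.R189.SY.Ex.section_const hs, fun hm v => ?_⟩⟩,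
    fun Γ hΓ h2 L hc => Pool.Agent.R189.SY.dim_two hΓ h2 hc⟩
  · exact ⟨fun _ => 1, fun h => one_ne_zero (congrFun h 0), fun _ => rfl⟩
  · rw [Pool.Agent.R189.SY.Ex.section_odd hm hs]
    rfl

end Pool.Agent.Results.MP_63735c_ag.TorsionLineBundles
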